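import Pool.Agent.H61.TP2.Two
import Pool.Agent.H98.BE.Spec

set_option autoImplicit false

/-!
# Top scale, all n: bounds of the sum of the transpositions (note 6064, (3))

* `exact_S`: exactness inside `S`.
* `T2_split`: `T2 v = (a (a - 1) - 2 |S \ A|) v + T2 (S \ A) v` if `v` is fixed by `Sym A`, `A` maximal.
* `tau_mid`: the two bounds for the eigenvalue of a vector fixed by `Sym A`, `A` maximal.
* `tau_top`: the bound `n (a - 1)`.
-/

open Finset Equiv Pool.H98.BE Pool.H60.TP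
open scoped InnerProductSpace

namespace Pool.H98.TA

variable {n : ℕ} {V : Type*} [NormedAddCommGroup V] [InnerProductSpace ℝ V]
variable {ρ : Perm (Fin n) →* (V →ₗ[ℝ] V)}

private theorem Tau_mul (σ τ : Perm (Fin n)) (v : V) : ρ (σ * τ) v = ρ σ (ρ τ v) := by
  rw [map_mul]
  rfl

private theorem Tau_one (v : V) : ρ 1 v = v := by
  rw [map_one]
  rfl

private theorem Tau_swap_swap (x y : Fin n) (v : V) :
    ρ (Equiv.swap x y) (ρ (Equiv.swap x y) v) = v := by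
  rw [← Tau_mul, Equiv.swap_mul_self, Tau_one]

private theorem Tau_T2 (S : Finset (Fin n)) (w : V) :
    T2 ρ S w = ∑ x ∈ S, ∑ y ∈ S.erase x, ρ (Equiv.swap x y) w := by
  rw [T2, LinearMap.sum_apply]
  refine Finset.sum_congr rfl fun x _ => ?_
  rw [J, LinearMap.sum_apply]

/-- exactness inside `S` -/
theorem exact_S {E : Submodule ℝ V} {S A : Finset (Fin n)} (hAS : A ⊆ S)
    (hE : ∀ x ∈ S, ∀ y ∈ S, ∀ w ∈ E, ρ (Equiv.swap x y) w ∈ E) {c : Fin n} (hcS : c ∈ S)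
    (hc : c ∉ A) (hmax : ∀ v ∈ E, FixIn ρ (insert c A) v → v = 0)
    {v : V} (hv : v ∈ E) (hf : FixIn ρ A v) : v + ∑ x ∈ A, ρ (Equiv.swap x c) v = 0 := by
  classical
  refine hmax _ (E.add_mem hv (E.sum_mem fun x hx => hE _ (hAS hx) _ hcS _ hv)) ?_
  -- two points of `A`
  have h1 : ∀ x' ∈ A, ∀ y' ∈ A, ρ (Equiv.swap x' y') (v + ∑ x ∈ A, ρ (Equiv.swap x c) v) =
      v + ∑ x ∈ A, ρ (Equiv.swap x c) v := by
    intro x' hx' y' hy'
    rw [map_add, hf x' hx' y' hy', map_sum]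
    congr 1
    have hcx : Equiv.swap x' y' c = c := by
      apply Equiv.swap_apply_of_ne_of_ne
      · rintro rfl
        exact hc hx'
      · rintro rfl
        exact hc hy'
    have hmem : ∀ x ∈ A, Equiv.swap x' y' x ∈ A := by
      intro x hx
      rcases eq_or_ne x x' with rfl | h2
      · rw [Equiv.swap_apply_left]
        exact hy'
      · rcases eq_or_ne x y' with rfl | h3
        · rw [Equiv.swap_apply_right]
          exact hx'
        · rw [Equiv.swap_apply_of_ne_of_ne h2 h3]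
          exact hx
    refine sum_nbij' (fun x => Equiv.swap x' y' x) (fun x => Equiv.swap x' y' x) hmem hmem ?_ ?_ ?_
    · intro x _
      rw [Equiv.swap_apply_self]
    · intro x _
      rw [Equiv.swap_apply_self]
    · intro x _
      rw [← Tau_mul, Equiv.mul_swap_eq_swap_mul, hcx, Tau_mul, hf x' hx' y' hy']
  -- a point of `A` and `c`
  have h2 : ∀ x' ∈ A, ρ (Equiv.swap x' c) (v + ∑ x ∈ A, ρ (Equiv.swap x c) v) =
      v + ∑ x ∈ A, ρ (Equiv.swap x c) v := by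
    intro x' hx'
    rw [← add_sum_erase A _ hx', map_add, map_add, Tau_swap_swap, map_sum]
    have h3 : ∑ x ∈ A.erase x', ρ (Equiv.swap x' c) (ρ (Equiv.swap x c) v) =
        ∑ x ∈ A.erase x', ρ (Equiv.swap x c) v := by
      refine sum_congr rfl fun x hx => ?_
      have hxx := ne_of_mem_erase hx
      have hxA := mem_of_mem_erase hx
      have hxc : x ≠ c := by
        rintro rfl
        exact hc hxA
      have h4 : Equiv.swap x' c * Equiv.swap x c = Equiv.swap x c * Equiv.swap x' x := by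
        have h5 := Equiv.mul_swap_eq_swap_mul (Equiv.swap x c) x' x
        rw [Equiv.swap_apply_left, Equiv.swap_apply_of_ne_of_ne hxx.symm
          (by rintro rfl; exact hc hx')] at h5
        exact h5.symm
      rw [← Tau_mul, h4, Tau_mul, hf x' hx' x hxA]
    rw [h3]
    abel
  intro x hx y hy
  rw [mem_insert] at hx hy
  rcases hx with rfl | hx
  · rcases hy with rfl | hy
    · rw [Equiv.swap_self]
      exact Tau_one _
    · rw [Equiv.swap_comm]
      exact h2 y hy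
  · rcases hy with rfl | hy
    · exact h2 x hx
    · exact h1 x hx y hy

/-- the sum of the transpositions on a vector fixed by `Sym A`, `A` maximal -/
theorem T2_split {E : Submodule ℝ V} {S A : Finset (Fin n)} (hAS : A ⊆ S)
    (hE : ∀ x ∈ S, ∀ y ∈ S, ∀ w ∈ E, ρ (Equiv.swap x y) w ∈ E)
    (hmax : ∀ c ∈ S, c ∉ A → ∀ v ∈ E, FixIn ρ (insert c A) v → v = 0)
    {v : V} (hv : v ∈ E) (hf : FixIn ρ A v) :
    T2 ρ S v = ((A.card : ℝ) * ((A.card : ℝ) - 1) - 2 * ((S \ A).card : ℝ)) • v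
      + T2 ρ (S \ A) v := by
  classical
  have hex : ∀ c ∈ S \ A, ∑ x ∈ A, ρ (Equiv.swap x c) v = -v := by
    intro c hc
    obtain ⟨hcS, hcA⟩ := mem_sdiff.1 hc
    have h1 := exact_S hAS hE hcS hcA (hmax c hcS hcA) hv hf
    rw [add_comm] at h1
    exact eq_neg_of_add_eq_zero_left h1
  have hex' : ∀ c ∈ S \ A, ∑ x ∈ A, ρ (Equiv.swap c x) v = -v := by
    intro c hc
    rw [← hex c hc]
    exact sum_congr rfl fun x _ => by rw [Equiv.swap_comm]
  have hdisj : Disjoint A (S \ A) := disjoint_sdiff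
  have hS : A ∪ (S \ A) = S := union_sdiff_of_subset hAS
  have e1 : ∑ x ∈ A, ∑ y ∈ S.erase x, ρ (Equiv.swap x y) v =
      ((A.card : ℝ) * ((A.card : ℝ) - 1)) • v + ∑ x ∈ A, ∑ y ∈ S \ A, ρ (Equiv.swap x y) v := by
    have h1 : ∀ x ∈ A, ∑ y ∈ S.erase x, ρ (Equiv.swap x y) v =
        ((A.card : ℝ) - 1) • v + ∑ y ∈ S \ A, ρ (Equiv.swap x y) v := by
      intro x hx
      have h2 : S.erase x = A.erase x ∪ (S \ A) := by
        ext y
        simp only [mem_erase, mem_union, mem_sdiff]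
        constructor
        · rintro ⟨h3, h4⟩
          by_cases hyA : y ∈ A
          · exact Or.inl ⟨h3, hyA⟩
          · exact Or.inr ⟨h4, hyA⟩
        · rintro (⟨h3, h4⟩ | ⟨h3, h4⟩)
          · exact ⟨h3, hAS h4⟩
          · exact ⟨by rintro rfl; exact h4 hx, h3⟩
      rw [h2, sum_union (hdisj.mono_left (erase_subset _ _))]
      congr 1
      rw [sum_congr rfl fun y hy => hf x hx y (mem_of_mem_erase hy), sum_const,
        card_erase_of_mem hx, ← Nat.cast_smul_eq_nsmul ℝ,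
        Nat.cast_sub (card_pos.2 ⟨x, hx⟩), Nat.cast_one]
    rw [sum_congr rfl h1, sum_add_distrib, sum_const, ← Nat.cast_smul_eq_nsmul ℝ, smul_smul]
  have e2 : ∑ x ∈ A, ∑ y ∈ S \ A, ρ (Equiv.swap x y) v = (-((S \ A).card : ℝ)) • v := by
    rw [sum_comm, sum_congr rfl hex, sum_const, ← Nat.cast_smul_eq_nsmul ℝ, smul_neg, neg_smul]
  have e3 : ∑ x ∈ S \ A, ∑ y ∈ S.erase x, ρ (Equiv.swap x y) v =
      (-((S \ A).card : ℝ)) • v + T2 ρ (S \ A) v := by
    have h1 : ∀ x ∈ S \ A, ∑ y ∈ S.erase x, ρ (Equiv.swap x y) v =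
        -v + ∑ y ∈ (S \ A).erase x, ρ (Equiv.swap x y) v := by
      intro x hx
      have hxA := (mem_sdiff.1 hx).2
      have h2 : S.erase x = A ∪ (S \ A).erase x := by
        ext y
        simp only [mem_erase, mem_union, mem_sdiff]
        constructor
        · rintro ⟨h3, h4⟩
          by_cases hyA : y ∈ A
          · exact Or.inl hyA
          · exact Or.inr ⟨h3, h4, hyA⟩
        · rintro (h3 | ⟨h3, h4, h5⟩)
          · exact ⟨by rintro rfl; exact hxA h3, hAS h3⟩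
          · exact ⟨h3, h4⟩
      rw [h2, sum_union (hdisj.mono_right (erase_subset _ _)), hex' x hx]
    rw [sum_congr rfl h1, sum_add_distrib, sum_const, ← Nat.cast_smul_eq_nsmul ℝ, smul_neg,
      neg_smul, Tau_T2]
  have e0 : T2 ρ S v = ∑ x ∈ A, ∑ y ∈ S.erase x, ρ (Equiv.swap x y) v +
      ∑ x ∈ S \ A, ∑ y ∈ S.erase x, ρ (Equiv.swap x y) v := by
    rw [Tau_T2, ← sum_union hdisj, hS]
  rw [e0, e1, e2, e3]
  have h4 : ((A.card : ℝ) * ((A.card : ℝ) - 1) - 2 * ((S \ A).card : ℝ)) • v =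
      ((A.card : ℝ) * ((A.card : ℝ) - 1)) • v + (-((S \ A).card : ℝ)) • v
        + (-((S \ A).card : ℝ)) • v := by
    rw [← add_smul, ← add_smul]
    congr 1
    ring
  rw [h4]
  abel

/-- the two bounds for the eigenvalue of a vector fixed by `Sym A`, `A` maximal -/
theorem tau_mid [FiniteDimensional ℝ V]
    (hρ : ∀ (σ : Perm (Fin n)) (u v : V), ⟪ρ σ u, ρ σ v⟫_ℝ = ⟪u, v⟫_ℝ)
    {E : Submodule ℝ V} (hE : Invar ρ E) {a : ℕ}
    (hmax : ∀ B : Finset (Fin n), B.card = a + 1 → ∀ v ∈ E, FixIn ρ B v → v = 0)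
    {A : Finset (Fin n)} (hA : A.card = a) {v : V} (hv : v ∈ E) (hv0 : v ≠ 0) (hf : FixIn ρ A v)
    {t : ℝ} (ht : T2 ρ (univ : Finset (Fin n)) v = t • v) :
    (a : ℝ) * ((a : ℝ) - 1) - ((n : ℝ) - a) * ((n : ℝ) - a + 1) ≤ t ∧
      t ≤ (a : ℝ) * ((a : ℝ) - 1) + ((n : ℝ) - a) * ((n : ℝ) - a - 3) := by
  classical
  have h1 := T2_split (ρ := ρ) (E := E) (subset_univ A) (fun x _ y _ w hw => hE _ w hw)
    (fun c _ hc v hv hfv => hmax _ (by rw [card_insert_of_notMem hc, hA]) v hv hfv) hv hf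
  rw [ht, hA] at h1
  have hcard : ((univ \ A).card : ℝ) = (n : ℝ) - a := by
    rw [card_sdiff_of_subset (subset_univ A), card_univ, Fintype.card_fin, hA,
      Nat.cast_sub (by rw [← hA]; exact (card_le_univ A).trans (le_of_eq (Fintype.card_fin n)))]
  rw [hcard] at h1
  have h2 : T2 ρ (univ \ A) v =
      (t - ((a : ℝ) * ((a : ℝ) - 1) - 2 * ((n : ℝ) - a))) • v := by
    rw [sub_smul, h1]
    abel
  have h3 := T2_eig_bound hρ hv0 h2
  rw [hcard, abs_le] at h3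
  constructor
  · linarith [h3.1]
  · linarith [h3.2]

private theorem Tau_comm {S : Finset (Fin n)} {s : Perm (Fin n)} (hs : ∀ x, s x ∈ S ↔ x ∈ S)
    (w : V) : T2 ρ S (ρ s w) = ρ s (T2 ρ S w) := by
  rw [Tau_T2, Tau_T2, map_sum]
  symm
  refine Finset.sum_equiv s (fun x => (hs x).symm) ?_
  intro p _
  rw [map_sum]
  refine Finset.sum_equiv s ?_ ?_
  · intro q
    rw [mem_erase, mem_erase, hs]
    exact and_congr_left fun _ => not_congr s.injective.eq_iff.symm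
  · intro q _
    rw [← Tau_mul, ← Tau_mul, Equiv.mul_swap_eq_swap_mul]

private theorem Tau_swap_mem {S : Finset (Fin n)} {x y : Fin n} (hx : x ∈ S) (hy : y ∈ S)
    (a : Fin n) : Equiv.swap x y a ∈ S ↔ a ∈ S := by
  by_cases h1 : a = x
  · rw [h1, Equiv.swap_apply_left]
    exact ⟨fun _ => hx, fun _ => hy⟩
  · by_cases h2 : a = y
    · rw [h2, Equiv.swap_apply_right]
      exact ⟨fun _ => hy, fun _ => hx⟩
    · rw [Equiv.swap_apply_of_ne_of_ne h1 h2]

private theorem Tau_mono {A B : Finset (Fin n)} {v : V} (h : FixIn ρ A v) (hBA : B ⊆ A) :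
    FixIn ρ B v := fun x hx y hy => h x (hBA hx) y (hBA hy)

/-- the bound of the quadratic form, for subgroups `Sym S` -/
theorem T2_le [FiniteDimensional ℝ V]
    (hρ : ∀ (σ : Perm (Fin n)) (u v : V), ⟪ρ σ u, ρ σ v⟫_ℝ = ⟪u, v⟫_ℝ) (N : ℕ) :
    ∀ (S : Finset (Fin n)), S.card = N → ∀ (E : Submodule ℝ V),
      (∀ x ∈ S, ∀ y ∈ S, ∀ w ∈ E, ρ (Equiv.swap x y) w ∈ E) → ∀ a : ℕ,
      (∀ B ⊆ S, B.card = a + 1 → ∀ v ∈ E, FixIn ρ B v → v = 0) →
      ∀ v ∈ E, ⟪T2 ρ S v, v⟫_ℝ ≤ (N : ℝ) * ((a : ℝ) - 1) * ⟪v, v⟫_ℝ := by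
  classical
  induction N using Nat.strong_induction_on with
  | _ N ih =>
  intro S hS E hE a hmax v hv
  rcases S.eq_empty_or_nonempty with rfl | hne
  · rw [card_empty] at hS
    rw [← hS, Tau_T2, sum_empty, inner_zero_left]
    simp
  by_cases hE0 : E = ⊥
  · rw [hE0, Submodule.mem_bot] at hv
    rw [hv, map_zero, inner_zero_left, mul_zero]
  have hTE : ∀ w ∈ E, (-(T2 ρ S)) w ∈ E := by
    intro w hw
    rw [LinearMap.neg_apply]
    refine E.neg_mem ?_
    rw [Tau_T2]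
    exact E.sum_mem fun x hx => E.sum_mem fun y hy => hE x hx y (mem_of_mem_erase hy) w hw
  have hsym : (-(T2 ρ S)).IsSymmetric := by
    intro u w
    rw [LinearMap.neg_apply, LinearMap.neg_apply, inner_neg_left, inner_neg_right,
      T2_symm hρ S u w]
  obtain ⟨c, w0, hw0E, hw00, hw0, hmin⟩ := exists_min_eig (-(T2 ρ S)) hsym E hE0 hTE
  -- the eigenspace
  obtain ⟨W, hW⟩ : ∃ W : Submodule ℝ V, ∀ w, w ∈ W ↔ w ∈ E ∧ T2 ρ S w = (-c) • w := by
    refine ⟨E ⊓ LinearMap.ker (T2 ρ S - (-c) • LinearMap.id), fun w => ?_⟩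
    rw [Submodule.mem_inf, LinearMap.mem_ker, LinearMap.sub_apply, sub_eq_zero]
    rfl
  have hw0W : w0 ∈ W := by
    rw [hW]
    refine ⟨hw0E, ?_⟩
    rw [LinearMap.neg_apply] at hw0
    rw [neg_smul, ← hw0, neg_neg]
  have hWinv : ∀ x ∈ S, ∀ y ∈ S, ∀ w ∈ W, ρ (Equiv.swap x y) w ∈ W := by
    intro x hx y hy w hw
    rw [hW] at hw ⊢
    refine ⟨hE x hx y hy w hw.1, ?_⟩
    rw [Tau_comm (Tau_swap_mem hx hy), hw.2, map_smul]
  -- a maximal set
  obtain ⟨A, hAmem, hAmax⟩ := Finset.exists_max_image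
    (S.powerset.filter (fun A => ∃ v ∈ W, v ≠ 0 ∧ FixIn ρ A v)) Finset.card
    ⟨∅, by
      rw [mem_filter]
      exact ⟨empty_mem_powerset S, w0, hw0W, hw00, fun x hx => absurd hx (notMem_empty x)⟩⟩
  rw [mem_filter, mem_powerset] at hAmem
  obtain ⟨hAS, u, huW, hu0, hfu⟩ := hAmem
  have hmaxW : ∀ B ⊆ S, A.card < B.card → ∀ v ∈ W, FixIn ρ B v → v = 0 := by
    intro B hBS hlt v hv hf
    by_contra hv0
    have h1 := hAmax B (by
      rw [mem_filter, mem_powerset]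
      exact ⟨hBS, v, hv, hv0, hf⟩)
    omega
  have hA1 : 1 ≤ A.card := by
    obtain ⟨x, hx⟩ := hne
    by_contra hlt
    have h1 := hmaxW {x} (singleton_subset_iff.2 hx) (by rw [card_singleton]; omega) w0 hw0W
      (by
        intro y hy z hz
        rw [mem_singleton] at hy hz
        rw [hy, hz, Equiv.swap_self]
        exact Tau_one _)
    exact hw00 h1
  have hAa : A.card ≤ a := by
    by_contra hlt
    obtain ⟨B, hBA, hB⟩ := exists_subset_card_eq (show a + 1 ≤ A.card by omega)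
    exact hu0 (hmax B (hBA.trans hAS) hB u ((hW u).1 huW).1 (Tau_mono hfu hBA))
  have hsplit := T2_split hAS hWinv (fun c' hc' hcA v hv hf => hmaxW (insert c' A)
    (insert_subset hc' hAS) (by rw [card_insert_of_notMem hcA]; omega) v hv hf) huW hfu
  -- the induction hypothesis
  have hScard : (S \ A).card + A.card = N := by
    rw [← hS]
    exact card_sdiff_add_card_eq_card hAS
  obtain ⟨U, hU⟩ : ∃ U : Submodule ℝ V, ∀ w, w ∈ U ↔ w ∈ W ∧ FixIn ρ A w := by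
    refine ⟨{ carrier := {w | w ∈ W ∧ FixIn ρ A w}
              add_mem' := ?_
              zero_mem' := ⟨W.zero_mem, fun x _ y _ => map_zero _⟩
              smul_mem' := ?_ }, fun w => Iff.rfl⟩
    · rintro w1 w2 ⟨h1, h2⟩ ⟨h3, h4⟩
      exact ⟨W.add_mem h1 h3, fun x hx y hy => by rw [map_add, h2 x hx y hy, h4 x hx y hy]⟩
    · rintro r w1 ⟨h1, h2⟩
      exact ⟨W.smul_mem r h1, fun x hx y hy => by rw [map_smul, h2 x hx y hy]⟩
  have hUinv : ∀ x ∈ S \ A, ∀ y ∈ S \ A, ∀ w ∈ U, ρ (Equiv.swap x y) w ∈ U := by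
    intro x hx y hy w hw
    rw [hU] at hw ⊢
    obtain ⟨hxS, hxA⟩ := mem_sdiff.1 hx
    obtain ⟨hyS, hyA⟩ := mem_sdiff.1 hy
    refine ⟨hWinv x hxS y hyS w hw.1, ?_⟩
    intro x' hx' y' hy'
    have h1 : Equiv.swap x' y' * Equiv.swap x y = Equiv.swap x y * Equiv.swap x' y' := by
      rw [Equiv.mul_swap_eq_swap_mul, Equiv.swap_apply_of_ne_of_ne, Equiv.swap_apply_of_ne_of_ne]
      · rintro rfl; exact hyA hx'
      · rintro rfl; exact hyA hy'
      · rintro rfl; exact hxA hx'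
      · rintro rfl; exact hxA hy'
    rw [← Tau_mul, h1, Tau_mul, hw.2 x' hx' y' hy']
  have hIH := ih (S \ A).card (by omega) (S \ A) rfl U hUinv A.card
    (fun B hB hcard v hv hf => hmaxW B (hB.trans sdiff_subset) (by omega) v ((hU v).1 hv).1 hf)
    u ((hU u).2 ⟨huW, hfu⟩)
  have huT := ((hW u).1 huW).2
  have h5 : (-c) * ⟪u, u⟫_ℝ ≤ (N : ℝ) * ((A.card : ℝ) - 1) * ⟪u, u⟫_ℝ := by
    have h6 : ⟪T2 ρ S u, u⟫_ℝ = (-c) * ⟪u, u⟫_ℝ := by
      rw [huT, real_inner_smul_left]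
    rw [← h6, hsplit, inner_add_left, real_inner_smul_left]
    have h7 : (N : ℝ) = ((S \ A).card : ℝ) + (A.card : ℝ) := by
      rw [← hScard]
      push_cast
      ring
    rw [h7]
    have h8 : (0 : ℝ) ≤ ((S \ A).card : ℝ) * ⟪u, u⟫_ℝ :=
      mul_nonneg (Nat.cast_nonneg _) real_inner_self_nonneg
    nlinarith [hIH, h8]
  have hupos : 0 < ⟪u, u⟫_ℝ := real_inner_self_pos.2 hu0
  have h9 : -c ≤ (N : ℝ) * ((A.card : ℝ) - 1) := le_of_mul_le_mul_right h5 hupos
  have h10 : (N : ℝ) * ((A.card : ℝ) - 1) ≤ (N : ℝ) * ((a : ℝ) - 1) := by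
    have : (A.card : ℝ) ≤ (a : ℝ) := by exact_mod_cast hAa
    exact mul_le_mul_of_nonneg_left (by linarith) (Nat.cast_nonneg _)
  have h11 := hmin v hv
  rw [LinearMap.neg_apply, inner_neg_left] at h11
  have h12 : ⟪T2 ρ S v, v⟫_ℝ ≤ (-c) * ⟪v, v⟫_ℝ := by linarith
  exact h12.trans (mul_le_mul_of_nonneg_right (h9.trans h10) real_inner_self_nonneg)

/-- the bound `n (a - 1)` -/
theorem tau_top [FiniteDimensional ℝ V]
    (hρ : ∀ (σ : Perm (Fin n)) (u v : V), ⟪ρ σ u, ρ σ v⟫_ℝ = ⟪u, v⟫_ℝ)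
    {E : Submodule ℝ V} (hE : Invar ρ E) {a : ℕ}
    (hmax : ∀ B : Finset (Fin n), B.card = a + 1 → ∀ v ∈ E, FixIn ρ B v → v = 0)
    {v : V} (hv : v ∈ E) (hv0 : v ≠ 0)
    {t : ℝ} (ht : T2 ρ (univ : Finset (Fin n)) v = t • v) : t ≤ (n : ℝ) * ((a : ℝ) - 1) := by
  have h1 := T2_le hρ n (univ : Finset (Fin n)) (by rw [card_univ, Fintype.card_fin]) E
    (fun x _ y _ w hw => hE _ w hw) a (fun B _ hB => hmax B hB) v hv
  rw [ht, real_inner_smul_left] at h1
  exact le_of_mul_le_mul_right h1 (real_inner_self_pos.2 hv0)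

end Pool.H98.TA
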