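import Pool.Agent.H98.TA.EfGap
import Pool.Agent.H60.NM.LexE
import Pool.Agent.H60.TP.Main2

set_option autoImplicit false

/-!
# Top scale: sets of every size

`bd_lex_le_add`: if there are `n` permutations with good quotients, then for a set `A` of any size the
lexicographic segment of the same size has at most `(n-2) (n-2)! / 4` boundary edges more than `A`.
-/

open Finset Equiv Pool.H60.Transp Pool.H98.BE Pool.H60.TP Pool.H60.NM

namespace Pool.H98.TA

/-- the number of ordered pairs of adjacent permutations in the segment is `2 Ef` -/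
theorem D_lexInit {n m : ℕ} (hm : m ≤ n.factorial) : D (lexInit n m) = 2 * Ef n m := by
  obtain ⟨X, hX1, hX2, hX3⟩ := exists_down_E n m hm
  have h1 := D_down X hX2
  rw [hX3] at h1
  rw [← lexInit_eq X hX1 hX2] at h1
  exact h1

theorem bd_lex_le_add {n : ℕ} (hn3 : 3 ≤ n) (R : Fin n → Perm (Fin n))
    (hR : ∀ a b, a ≠ b → Good ((R a)⁻¹ * R b)) (A : Finset (Perm (Fin n))) :
    4 * bd (lexInit n A.card) ≤ 4 * bd A + (n - 2) * (n - 2).factorial := by
  have hle : A.card ≤ n.factorial := by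
    have := Finset.card_le_univ A
    rwa [Fintype.card_perm, Fintype.card_fin] at this
  have hmain := main_bound_good hn3 R hR A
  have h1 := bd_add_D A
  have h2 := bd_add_D (lexInit n A.card)
  have hcard : (lexInit n A.card).card = A.card := by
    obtain ⟨X, hX1, hX2, -⟩ := exists_down_E n A.card hle
    rw [lexInit_eq X hX1 hX2, hX1]
  rw [hcard, D_lexInit hle] at h2
  obtain ⟨N, rfl⟩ : ∃ N, n = N + 2 := ⟨n - 2, by omega⟩
  have e1 : N + 2 - 2 = N := by omega
  have e2 : N + 2 - 1 = N + 1 := by omega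
  rw [e1, e2] at hmain
  rw [e1]
  generalize A.card = m at *
  -- the first digit
  obtain ⟨c, s, hc, hs, hms⟩ : ∃ c s : ℕ, c ≤ N + 1 ∧ s ≤ (N + 1).factorial ∧
      m = c * (N + 1).factorial + s := by
    have hf : 0 < (N + 1).factorial := Nat.factorial_pos _
    rcases Nat.lt_or_ge m (N + 2).factorial with h | h
    · refine ⟨m / (N + 1).factorial, m % (N + 1).factorial, ?_, (Nat.mod_lt _ hf).le,
        (Nat.div_add_mod' m _).symm⟩
      rw [Nat.factorial_succ (N + 1)] at h
      have h1 : m / (N + 1).factorial < N + 1 + 1 :=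
        Nat.div_lt_of_lt_mul (by rw [mul_comm]; exact h)
      omega
    · refine ⟨N + 1, (N + 1).factorial, le_rfl, le_rfl, ?_⟩
      have h1 : m = (N + 2).factorial := le_antisymm hle h
      rw [h1, Nat.factorial_succ (N + 1)]
      ring
  have h3 := hmain c
  have h4 := gap_le N s hs
  have h5 := Ef_add (k := N + 1) (n := N + 2) (c := c) (r := s) le_rfl hc hs
  rw [← hms] at h5
  have hK : (0 : ℝ) < (N.factorial : ℝ) := by exact_mod_cast Nat.factorial_pos _
  have hKk : ((N + 1).factorial : ℝ) = ((N : ℝ) + 1) * (N.factorial : ℝ) := by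
    rw [Nat.factorial_succ]; push_cast; ring
  have hch : (((N + 1).choose 2 : ℕ) : ℝ) = (N.choose 2 : ℝ) + N := by
    have h3 : (N + 1).choose 2 = N.choose 1 + N.choose 2 := Nat.choose_succ_succ N 1
    rw [h3, Nat.choose_one_right]
    push_cast
    ring
  have hch2 : (N.choose 2 : ℝ) = (N : ℝ) * ((N : ℝ) - 1) / 2 := Nat.cast_choose_two ℝ N
  have h6 : (2 : ℝ) * (Ef (N + 2) m : ℝ) =
      c * (c - 1) * ((N + 1).factorial : ℝ) + c * (((N + 1).factorial : ℝ) * ((N.choose 2 : ℝ) + N))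
        + 2 * (c * s) + 2 * (Ef (N + 1) s : ℝ) := by
    rw [← hch]
    have h7 : ((2 * Ef (N + 2) m : ℕ) : ℝ) = ((c * (c - 1) * (N + 1).factorial
        + c * ((N + 1).factorial * (N + 1).choose 2) + 2 * (c * s) + 2 * Ef (N + 1) s : ℕ) : ℝ) := by
      rw [h5]
    rcases Nat.eq_zero_or_pos c with hc0 | hc0
    · subst hc0
      push_cast at h7 ⊢
      rw [h7]
      simp
    · obtain ⟨b, rfl⟩ : ∃ b, c = b + 1 := ⟨c - 1, by omega⟩
      rw [Nat.add_sub_cancel] at h7
      push_cast at h7 ⊢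
      rw [h7]
      ring
  have hmr : (m : ℝ) = c * ((N + 1).factorial : ℝ) + s := by rw [hms]; push_cast; ring
  -- divide the main bound by `N!`
  have h8 : (D A : ℝ) ≤ 2 * (Ef (N + 2) m : ℝ) + (N : ℝ) * (N.factorial : ℝ) / 4 := by
    have h9 : (N.factorial : ℝ) * (D A : ℝ) ≤
        (N.factorial : ℝ) * (2 * (Ef (N + 2) m : ℝ) + (N : ℝ) * (N.factorial : ℝ) / 4) := by
      have h10 : (s : ℝ) ^ 2 ≤ (N.factorial : ℝ) * ((N : ℝ) * (N.factorial : ℝ) / 4
          - ((N.choose 2 : ℝ) - 1) * s + 2 * (Ef (N + 1) s : ℝ)) := by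
        have h11 : (s : ℝ) ^ 2 / (N.factorial : ℝ) ≤ (N : ℝ) * (N.factorial : ℝ) / 4
          - ((N.choose 2 : ℝ) - 1) * s + 2 * (Ef (N + 1) s : ℝ) := by linarith
        rw [div_le_iff₀ hK] at h11
        linarith
      rw [h6]
      rw [hmr] at h3
      push_cast at h3
      rw [hch2] at h10 ⊢
      rw [hKk] at h3 ⊢
      nlinarith [h3, h10]
    exact le_of_mul_le_mul_left h9 hK
  have h12 : (bd A : ℝ) + D A = bd (lexInit (N + 2) m) + 2 * (Ef (N + 2) m : ℝ) := by
    have h13 : bd A + D A = bd (lexInit (N + 2) m) + 2 * Ef (N + 2) m := by rw [h1, h2]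
    exact_mod_cast h13
  have h14 : ((4 * bd (lexInit (N + 2) m) : ℕ) : ℝ) ≤ ((4 * bd A + N * N.factorial : ℕ) : ℝ) := by
    push_cast
    linarith
  exact_mod_cast h14

end Pool.H98.TA
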