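import Pool.Agent.H60.NM.Ef

set_option autoImplicit false

/-!
# Top scale: the distance of the quadratic bound to the segment

`gap_le`: for `r ≤ (k+1)!` the quadratic bound `r²/k! + (C(k,2) - 1) r` is at most `k k! / 4` larger than
`2 Ef (k+1) r`, twice the number of edges inside the first `r` permutations.
-/

open Finset Pool.H60.NM

namespace Pool.H98.TA

private theorem decomp {k r : ℕ} (hr : r ≤ (k + 2).factorial) :
    ∃ c s : ℕ, c ≤ k + 1 ∧ s ≤ (k + 1).factorial ∧ r = c * (k + 1).factorial + s := by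
  have hf : 0 < (k + 1).factorial := Nat.factorial_pos _
  rcases Nat.lt_or_ge r (k + 2).factorial with h | h
  · refine ⟨r / (k + 1).factorial, r % (k + 1).factorial, ?_, (Nat.mod_lt _ hf).le, ?_⟩
    · rw [Nat.factorial_succ (k + 1)] at h
      have h1 : r / (k + 1).factorial < k + 1 + 1 := Nat.div_lt_of_lt_mul (by rw [mul_comm]; exact h)
      omega
    · exact (Nat.div_add_mod' r _).symm
  · refine ⟨k + 1, (k + 1).factorial, le_rfl, le_rfl, ?_⟩
    have h1 : r = (k + 2).factorial := le_antisymm hr h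
    rw [h1, Nat.factorial_succ (k + 1)]
    ring

theorem gap_le (k : ℕ) : ∀ r : ℕ, r ≤ (k + 1).factorial →
    (r : ℝ) ^ 2 / (k.factorial : ℝ) + ((k.choose 2 : ℝ) - 1) * r - 2 * (Ef (k + 1) r : ℝ) ≤
      (k : ℝ) * (k.factorial : ℝ) / 4 := by
  induction k with
  | zero =>
    intro r hr
    have hr1 : r ≤ 1 := hr
    interval_cases r
    · simp [Ef_zero]
    · have h1 : Ef (0 + 1) 1 = 0 := by decide
      rw [h1]
      norm_num
  | succ k ih =>
    intro r hr
    obtain ⟨c, s, hc, hs, rfl⟩ := decomp hr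
    have h1 := Ef_add (k := k + 1) (n := k + 1 + 1) (c := c) (r := s) le_rfl hc hs
    have h2 := ih s hs
    have hK : (0 : ℝ) < ((k + 1).factorial : ℝ) := by exact_mod_cast Nat.factorial_pos _
    have hk : (0 : ℝ) < (k.factorial : ℝ) := by exact_mod_cast Nat.factorial_pos _
    have hKk : ((k + 1).factorial : ℝ) = ((k : ℝ) + 1) * (k.factorial : ℝ) := by
      rw [Nat.factorial_succ]; push_cast; ring
    have hch : (((k + 1).choose 2 : ℕ) : ℝ) = (k.choose 2 : ℝ) + k := by
      have h3 : (k + 1).choose 2 = k.choose 1 + k.choose 2 := Nat.choose_succ_succ k 1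
      rw [h3, Nat.choose_one_right]
      push_cast
      ring
    have h3 : (2 : ℝ) * (Ef (k + 1 + 1) (c * (k + 1).factorial + s) : ℝ) =
        c * (c - 1) * ((k + 1).factorial : ℝ) + c * (((k + 1).factorial : ℝ) * ((k.choose 2 : ℝ) + k))
          + 2 * (c * s) + 2 * (Ef (k + 1) s : ℝ) := by
      rw [← hch]
      rcases Nat.eq_zero_or_pos c with hc0 | hc0
      · subst hc0
        have h4 : (2 * (Ef (k + 1 + 1) (0 * (k + 1).factorial + s)) : ℕ) = 2 * Ef (k + 1) s := by
          rw [h1]; simp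
        have h5 : (2 : ℝ) * (Ef (k + 1 + 1) (0 * (k + 1).factorial + s) : ℝ) = 2 * (Ef (k + 1) s : ℝ) := by
          exact_mod_cast h4
        rw [h5]
        simp
      · obtain ⟨b, rfl⟩ : ∃ b, c = b + 1 := ⟨c - 1, by omega⟩
        rw [Nat.add_sub_cancel] at h1
        have h4 : ((2 * Ef (k + 1 + 1) ((b + 1) * (k + 1).factorial + s) : ℕ) : ℝ) =
            (((b + 1) * b * (k + 1).factorial + (b + 1) * ((k + 1).factorial * (k + 1).choose 2)
              + 2 * ((b + 1) * s) + 2 * Ef (k + 1) s : ℕ) : ℝ) := by rw [h1]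
        push_cast at h4 ⊢
        rw [h4]
        ring
    rw [h3, hch]
    -- the recursion
    have h5 : (s : ℝ) * (((k + 1).factorial : ℝ) - s) / ((k + 1).factorial : ℝ) ≤
        ((k + 1).factorial : ℝ) / 4 := by
      rw [div_le_div_iff₀ hK (by norm_num)]
      nlinarith [sq_nonneg (((k + 1).factorial : ℝ) - 2 * s)]
    have h6 : (s : ℝ) ^ 2 / ((k + 1).factorial : ℝ) =
        (s : ℝ) ^ 2 / (k.factorial : ℝ) - k * ((s : ℝ) ^ 2 / ((k + 1).factorial : ℝ)) := by
      rw [hKk]
      field_simp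
      ring
    have h7 : (((c * (k + 1).factorial + s : ℕ) : ℝ)) ^ 2 / ((k + 1).factorial : ℝ) =
        (c : ℝ) ^ 2 * ((k + 1).factorial : ℝ) + 2 * c * s + (s : ℝ) ^ 2 / ((k + 1).factorial : ℝ) := by
      push_cast
      field_simp
      ring
    have h8 : (s : ℝ) * (((k + 1).factorial : ℝ) - s) / ((k + 1).factorial : ℝ) =
        s - (s : ℝ) ^ 2 / ((k + 1).factorial : ℝ) := by
      field_simp
    rw [h7]
    push_cast
    have hk0 : (0 : ℝ) ≤ k := Nat.cast_nonneg k
    have h9 : (k : ℝ) * ((s : ℝ) - (s : ℝ) ^ 2 / ((k + 1).factorial : ℝ)) ≤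
        k * (((k + 1).factorial : ℝ) / 4) := by
      rw [← h8]
      exact mul_le_mul_of_nonneg_left h5 hk0
    have h10 : (k : ℝ) * (k.factorial : ℝ) / 4 + k * (((k + 1).factorial : ℝ) / 4) ≤
        ((k : ℝ) + 1) * ((k + 1).factorial : ℝ) / 4 := by
      rw [hKk]
      nlinarith [mul_nonneg hk0 hk.le]
    nlinarith [h2, h6, h9, h10]

end Pool.H98.TA
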