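import Pool.Agent.H98.TA.EfGap
import Pool.Agent.H60.NM.LexE

set_option autoImplicit false

/-!
# Sets of permutations of every size: the conjecture up to a factor

`low'`: for `m < (n-1)!` the boundary of a set `A` of `m` permutations of `n` elements is at least `11/12` of
the boundary of the lexicographic segment.  `factor_all`: at least `4/5` of it for all sizes.
Only the inequality of `GeneralBound` is used here.
-/

open Finset Equiv Pool.H60.Transp Pool.H60.NM

namespace Pool.H98.TA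

/-- the boundary of the segment -/
private theorem bd_seg {n m : ℕ} (hm : m ≤ n.factorial) :
    bd (lexInit n m) + 2 * Ef n m = n.choose 2 * m ∧ (lexInit n m).card = m := by
  obtain ⟨X, hX1, hX2, hX3⟩ := exists_down_E n m hm
  have h2 := bd_add_D X
  have h3 := D_down X hX2
  rw [hX3] at h3
  have h4 := lexInit_eq X hX1 hX2
  rw [card_pairs, h3, hX1] at h2
  rw [h4]
  exact ⟨h2, hX1⟩

/-- the segment of the complementary size -/
theorem bd_seg_compl {n m : ℕ} (hm : m ≤ n.factorial) :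
    bd (lexInit n (n.factorial - m)) = bd (lexInit n m) := by
  obtain ⟨X, h1, h2, -⟩ := exists_down_E n m hm
  have hcard : (mirror Xᶜ).card = n.factorial - m := by
    rw [card_mirror, Finset.card_compl, Fintype.card_perm, Fintype.card_fin, h1]
  rw [lexInit_eq X h1 h2, lexInit_eq (mirror Xᶜ) hcard (mirror_down h2), bd_mirror, bd_compl]

/-- the inequality of `GeneralBound`, divided by `k!` -/
private theorem D_le_real {n k : ℕ} (hk : 1 ≤ k) (X : Finset (Perm (Fin n))) :
    (D X : ℝ) ≤ (X.card : ℝ) ^ 2 / (k.factorial : ℝ) + ((k.choose 2 : ℝ) - 1) * X.card := by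
  have h := P_nat k hk X
  have hK : (0 : ℝ) < (k.factorial : ℝ) := by exact_mod_cast Nat.factorial_pos _
  have h1 : (k.factorial : ℝ) * D X + (k.factorial : ℝ) * X.card ≤
      (X.card : ℝ) ^ 2 + (k.factorial : ℝ) * (k.choose 2 : ℝ) * X.card := by exact_mod_cast h
  have h2 : (k.factorial : ℝ) * (D X : ℝ) ≤ (k.factorial : ℝ) *
      ((X.card : ℝ) ^ 2 / (k.factorial : ℝ) + ((k.choose 2 : ℝ) - 1) * X.card) := by
    have h3 : (k.factorial : ℝ) *
      ((X.card : ℝ) ^ 2 / (k.factorial : ℝ) + ((k.choose 2 : ℝ) - 1) * X.card) =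
        (X.card : ℝ) ^ 2 + (k.factorial : ℝ) * (k.choose 2 : ℝ) * X.card
          - (k.factorial : ℝ) * X.card := by
      field_simp
      ring
    rw [h3]
    linarith
  exact le_of_mul_le_mul_left h2 hK

/-- the two estimates at level `k = j + 1` -/
theorem core {n j : ℕ} (hj : j + 2 ≤ n) (A : Finset (Perm (Fin n)))
    (h1 : (j + 1).factorial ≤ A.card) (h2 : A.card < (j + 2).factorial) :
    ∃ K y t : ℝ, 0 < K ∧ 0 ≤ t ∧ t ≤ 1 ∧ 1 + t ≤ y ∧ y ≤ (j : ℝ) + 2 ∧ (A.card : ℝ) = K * y ∧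
      K = ((j + 1).factorial : ℝ) ∧ (y < 2 → y = 1 + t) ∧
      (bd (lexInit n A.card) : ℝ) ≤ bd A + K * (j * (t * (1 - t)) + j / (4 * ((j : ℝ) + 1))) ∧
      K * (y * ((n : ℝ) * ((n : ℝ) - 1) / 2 - (j + 1) * j / 2 + 1 - y)) ≤
        (bd (lexInit n A.card) : ℝ) ∧
      K * (y * ((n : ℝ) * ((n : ℝ) - 1) / 2 - (j + 1) * j / 2 + 1 - y)) ≤ (bd A : ℝ) := by
  have hK : (0 : ℝ) < ((j + 1).factorial : ℝ) := by exact_mod_cast Nat.factorial_pos _
  have hj0 : (0 : ℝ) < (j.factorial : ℝ) := by exact_mod_cast Nat.factorial_pos _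
  have hKj : ((j + 1).factorial : ℝ) = ((j : ℝ) + 1) * (j.factorial : ℝ) := by
    rw [Nat.factorial_succ]; push_cast; ring
  have hle : A.card ≤ n.factorial := h2.le.trans (Nat.factorial_le hj)
  obtain ⟨hb1, hb2⟩ := bd_seg hle
  have ha := bd_add_D A
  rw [card_pairs] at ha
  have hDA := D_le_real (k := j + 1) (by omega) A
  have hDL := D_le_real (k := j + 1) (by omega) (lexInit n A.card)
  have hbL := bd_add_D (lexInit n A.card)
  rw [card_pairs] at hbL
  rw [hb2] at hDL hbL
  have hst : Ef n A.card = Ef (j + 2) A.card := Ef_stable hj h2.le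
  rw [hst] at hb1
  generalize hm : A.card = m at *
  -- digits
  have hKpos : 0 < (j + 1).factorial := Nat.factorial_pos _
  obtain ⟨c, s, hc1, hc2, hs, hms⟩ : ∃ c s : ℕ, 1 ≤ c ∧ c ≤ j + 1 ∧ s < (j + 1).factorial ∧
      m = c * (j + 1).factorial + s := by
    refine ⟨m / (j + 1).factorial, m % (j + 1).factorial, ?_, ?_, Nat.mod_lt _ hKpos,
      (Nat.div_add_mod' m _).symm⟩
    · exact (Nat.one_le_div_iff hKpos).2 h1
    · rw [Nat.factorial_succ (j + 1)] at h2
      have h3 : m / (j + 1).factorial < j + 1 + 1 :=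
        Nat.div_lt_of_lt_mul (by rw [mul_comm]; exact h2)
      omega
  have hE := Ef_add (k := j + 1) (n := j + 2) (c := c) (r := s) le_rfl hc2 hs.le
  rw [← hms] at hE
  have hg := gap_le j s hs.le
  have hch : (((j + 1).choose 2 : ℕ) : ℝ) = (j.choose 2 : ℝ) + j := by
    have h3 : (j + 1).choose 2 = j.choose 1 + j.choose 2 := Nat.choose_succ_succ j 1
    rw [h3, Nat.choose_one_right]
    push_cast
    ring
  have hch2 : (j.choose 2 : ℝ) = (j : ℝ) * ((j : ℝ) - 1) / 2 := Nat.cast_choose_two ℝ j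
  have hchn : (n.choose 2 : ℝ) = (n : ℝ) * ((n : ℝ) - 1) / 2 := Nat.cast_choose_two ℝ n
  have hE' : (2 : ℝ) * (Ef (j + 2) m : ℝ) =
      c * (c - 1) * ((j + 1).factorial : ℝ) + c * (((j + 1).factorial : ℝ) * ((j.choose 2 : ℝ) + j))
        + 2 * (c * s) + 2 * (Ef (j + 1) s : ℝ) := by
    rw [← hch]
    obtain ⟨b, rfl⟩ : ∃ b, c = b + 1 := ⟨c - 1, by omega⟩
    rw [Nat.add_sub_cancel] at hE
    have h4 : ((2 * Ef (j + 2) m : ℕ) : ℝ) =
        (((b + 1) * b * (j + 1).factorial + (b + 1) * ((j + 1).factorial * (j + 1).choose 2)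
          + 2 * ((b + 1) * s) + 2 * Ef (j + 1) s : ℕ) : ℝ) := by rw [hE]
    push_cast at h4 ⊢
    rw [h4]
    ring
  have hmr : (m : ℝ) = c * ((j + 1).factorial : ℝ) + s := by rw [hms]; push_cast; ring
  -- the real parameters
  set K : ℝ := ((j + 1).factorial : ℝ) with hKdef
  obtain ⟨t, ht⟩ : ∃ t : ℝ, (s : ℝ) = K * t := ⟨(s : ℝ) / K, by field_simp⟩
  have ht0 : 0 ≤ t := by
    have h3 : 0 ≤ K * t := by rw [← ht]; exact Nat.cast_nonneg s
    exact nonneg_of_mul_nonneg_right h3 hK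
  have ht1 : t ≤ 1 := by
    have h3 : (s : ℝ) ≤ K := by rw [hKdef]; exact_mod_cast hs.le
    rw [ht] at h3
    exact (mul_le_iff_le_one_right hK).1 h3
  have hc1' : (1 : ℝ) ≤ c := by exact_mod_cast hc1
  have hc2' : (c : ℝ) ≤ j + 1 := by exact_mod_cast hc2
  have hj0' : (0 : ℝ) ≤ j := Nat.cast_nonneg j
  refine ⟨K, c + t, t, hK, ht0, ht1, by linarith, by linarith, by rw [hmr, ht]; ring, rfl, ?_, ?_, ?_, ?_⟩
  · intro hy
    have h3 : (c : ℝ) < 2 := by linarith
    have h4 : c < 2 := by exact_mod_cast h3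
    have h5 : c = 1 := by omega
    rw [h5]
    norm_num
  · -- the gap
    have h3 : (bd (lexInit n m) : ℝ) + 2 * (Ef (j + 2) m : ℝ) = bd A + D A := by
      have h4 : bd (lexInit n m) + 2 * Ef (j + 2) m = bd A + D A := by rw [hb1, ha]
      exact_mod_cast h4
    have h5 : (D A : ℝ) - 2 * (Ef (j + 2) m : ℝ) ≤
        (s : ℝ) ^ 2 / K + ((j.choose 2 : ℝ) + j - 1) * s - 2 * (Ef (j + 1) s : ℝ) := by
      rw [hE']
      rw [hch] at hDA
      have h6 : (m : ℝ) ^ 2 / K = (c : ℝ) ^ 2 * K + 2 * c * s + (s : ℝ) ^ 2 / K := by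
        rw [hmr]
        field_simp
        ring
      rw [h6] at hDA
      rw [hmr] at hDA
      nlinarith [hDA]
    have h7 : (s : ℝ) ^ 2 / K + ((j.choose 2 : ℝ) + j - 1) * s - 2 * (Ef (j + 1) s : ℝ) ≤
        K * (j * (t * (1 - t)) + j / (4 * ((j : ℝ) + 1))) := by
      have h8 : (s : ℝ) ^ 2 / (j.factorial : ℝ) = ((j : ℝ) + 1) * (K * t ^ 2) := by
        rw [ht, hKj]
        field_simp
      have h9 : (s : ℝ) ^ 2 / K = K * t ^ 2 := by
        rw [ht]
        field_simp
      have h10 : K * (j / (4 * ((j : ℝ) + 1))) = (j : ℝ) * (j.factorial : ℝ) / 4 := by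
        rw [hKj]
        field_simp
      rw [h8] at hg
      rw [h9, mul_add, h10]
      rw [ht] at hg ⊢
      nlinarith [hg]
    linarith
  · -- the lower bound
    have h3 : (bd (lexInit n m) : ℝ) + D (lexInit n m) = (n.choose 2 : ℝ) * m := by
      exact_mod_cast hbL
    have h4 : (m : ℝ) = K * (c + t) := by rw [hmr, ht]; ring
    have h5 : (m : ℝ) ^ 2 / K = K * (c + t) ^ 2 := by
      rw [h4]
      field_simp
    rw [h5, hch, hch2] at hDL
    rw [hchn] at h3
    rw [h4] at h3 hDL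
    nlinarith [h3, hDL]
  · -- the same bound for `A`
    have h3 : (bd A : ℝ) + D A = (n.choose 2 : ℝ) * m := by exact_mod_cast ha
    have h4 : (m : ℝ) = K * (c + t) := by rw [hmr, ht]; ring
    have h5 : (m : ℝ) ^ 2 / K = K * (c + t) ^ 2 := by
      rw [h4]
      field_simp
    rw [h5, hch, hch2] at hDA
    rw [hchn] at h3
    rw [h4] at h3 hDA
    nlinarith [h3, hDA]

/-- sizes below `(n-1)!` -/
theorem low' {n j : ℕ} (hj : j + 3 ≤ n) (A : Finset (Perm (Fin n)))
    (h1 : (j + 1).factorial ≤ A.card) (h2 : A.card < (j + 2).factorial) :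
    11 * bd (lexInit n A.card) ≤ 12 * bd A := by
  obtain ⟨K, y, t, hK, ht0, ht1, hy1, hy2, hm, hKd, -, hgap, -, hbd⟩ := core (by omega) A h1 h2
  have hjn : (j : ℝ) + 3 ≤ n := by exact_mod_cast hj
  have hj0 : (0 : ℝ) ≤ j := Nat.cast_nonneg j
  have h3 : 11 * (j * (t * (1 - t)) + j / (4 * ((j : ℝ) + 1))) ≤
      y * ((n : ℝ) * ((n : ℝ) - 1) / 2 - (j + 1) * j / 2 + 1 - y) := by
    have e1 : (j : ℝ) / (4 * ((j : ℝ) + 1)) ≤ 1 / 4 := by
      rw [div_le_div_iff₀ (by positivity) (by norm_num)]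
      linarith
    have e2 : 11 * (t * (1 - t)) ≤ 2 * (1 + t) := by nlinarith [sq_nonneg (22 * t - 9)]
    have e3 : (j : ℝ) * (11 * (t * (1 - t))) ≤ ((n : ℝ) - 3) * (2 * (1 + t)) := by
      have e4 : 0 ≤ 11 * (t * (1 - t)) := by nlinarith
      exact mul_le_mul (by linarith) e2 e4 (by linarith)
    have e5 : (2 * (n : ℝ) - 2) ≤ (n : ℝ) * ((n : ℝ) - 1) / 2 - (j + 1) * j / 2 + 1 := by
      nlinarith [mul_nonneg (show 0 ≤ (n : ℝ) - 3 - j by linarith) (show 0 ≤ (n : ℝ) - 2 + j by linarith)]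
    have e6 : y * (2 * (n : ℝ) - 2 - y) ≤
        y * ((n : ℝ) * ((n : ℝ) - 1) / 2 - (j + 1) * j / 2 + 1 - y) :=
      mul_le_mul_of_nonneg_left (by linarith) (by linarith)
    have e7 : (1 + t) * (2 * (n : ℝ) - 3 - t) ≤ y * (2 * (n : ℝ) - 2 - y) := by
      nlinarith [mul_nonneg (show 0 ≤ y - (1 + t) by linarith)
        (show 0 ≤ 2 * (n : ℝ) - 3 - t - y by linarith)]
    have e8 : ((n : ℝ) - 3) * (2 * (1 + t)) + 3 ≤ (1 + t) * (2 * (n : ℝ) - 3 - t) := by nlinarith
    nlinarith
  have h4 := mul_le_mul_of_nonneg_left h3 hK.le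
  have h5 : (11 : ℝ) * bd (lexInit n A.card) ≤ 12 * bd A := by nlinarith
  exact_mod_cast h5

/-- sizes from `(n-1)!` to `n!/2` -/
theorem mid {j : ℕ} (A : Finset (Perm (Fin (j + 2)))) (h1 : (j + 1).factorial ≤ A.card)
    (h2 : 2 * A.card ≤ (j + 2).factorial) : 4 * bd (lexInit (j + 2) A.card) ≤ 5 * bd A := by
  have h2' : A.card < (j + 2).factorial := by
    have : 0 < (j + 2).factorial := Nat.factorial_pos _
    omega
  obtain ⟨K, y, t, hK, ht0, ht1, hy1, hy2, hm, hKd, hy3, hgap, hbd, -⟩ := core le_rfl A h1 h2'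
  have hj0 : (0 : ℝ) ≤ j := Nat.cast_nonneg j
  have hy4 : 2 * y ≤ (j : ℝ) + 2 := by
    have h3 : (2 : ℝ) * A.card ≤ ((j : ℝ) + 2) * ((j + 1).factorial : ℝ) := by
      rw [Nat.factorial_succ (j + 1)] at h2
      have h4 : ((2 * A.card : ℕ) : ℝ) ≤ (((j + 1 + 1) * (j + 1).factorial : ℕ) : ℝ) := by
        exact_mod_cast h2
      push_cast at h4
      linarith
    rw [hm, ← hKd] at h3
    have h5 : K * (2 * y) ≤ K * ((j : ℝ) + 2) := by linarith
    exact le_of_mul_le_mul_left h5 hK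
  have hyt : y + t ≤ (j : ℝ) + 1 := by
    rcases lt_or_ge y 2 with h | h
    · have h3 := hy3 h
      rw [h3] at hy4 ⊢
      have h4 : (j = 0 ∨ 1 ≤ j) := by omega
      rcases h4 with h4 | h4
      · subst h4
        norm_num at hy4 ⊢
        linarith
      · have h5 : (1 : ℝ) ≤ j := by exact_mod_cast h4
        linarith
    · linarith
  have hn : (((j + 2 : ℕ) : ℝ)) = j + 2 := by push_cast; ring
  rw [hn] at hbd
  have e0 : ((j : ℝ) + 2) * ((j : ℝ) + 2 - 1) / 2 - (j + 1) * j / 2 + 1 - y = (j : ℝ) + 2 - y := by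
    ring
  rw [e0] at hbd
  have h3 : 5 * (j * (t * (1 - t)) + j / (4 * ((j : ℝ) + 1))) ≤ y * ((j : ℝ) + 2 - y) := by
    have e7 : (1 + t) * ((j : ℝ) + 1 - t) ≤ y * ((j : ℝ) + 2 - y) := by
      nlinarith [mul_nonneg (show 0 ≤ y - (1 + t) by linarith)
        (show 0 ≤ (j : ℝ) + 1 - t - y by linarith)]
    refine le_trans ?_ e7
    have h4 : j = 0 ∨ j = 1 ∨ j = 2 ∨ 3 ≤ j := by omega
    rcases h4 with h4 | h4 | h4 | h4
    · subst h4
      norm_num
      nlinarith
    · subst h4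
      norm_num
      nlinarith [sq_nonneg (2 * t - 1)]
    · subst h4
      norm_num
      nlinarith [sq_nonneg (9 * t - 4)]
    · have h5 : (3 : ℝ) ≤ j := by exact_mod_cast h4
      have e1 : (j : ℝ) / (4 * ((j : ℝ) + 1)) ≤ 1 / 4 := by
        rw [div_le_div_iff₀ (by positivity) (by norm_num)]
        linarith
      nlinarith [sq_nonneg (5 * t - 2), mul_nonneg (sub_nonneg.2 h5) (sq_nonneg (5 * t - 2)),
        sq_nonneg (7 * t - 3)]
  have h4 := mul_le_mul_of_nonneg_left h3 hK.le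
  have h5 : (4 : ℝ) * bd (lexInit (j + 2) A.card) ≤ 5 * bd A := by nlinarith
  exact_mod_cast h5

/-- the level of a size -/
theorem level {n m : ℕ} (hm : 1 ≤ m) (hn : m < n.factorial) :
    ∃ j, (j + 1).factorial ≤ m ∧ m < (j + 2).factorial ∧ j + 2 ≤ n := by
  induction n with
  | zero => rw [Nat.factorial_zero] at hn; omega
  | succ n ih =>
    rcases Nat.lt_or_ge m n.factorial with h | h
    · obtain ⟨j, h1, h2, h3⟩ := ih h
      exact ⟨j, h1, h2, by omega⟩
    · rcases Nat.eq_zero_or_pos n with h0 | h0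
      · subst h0
        have h4 : (0 + 1).factorial = 1 := rfl
        rw [h4] at hn
        omega
      · obtain ⟨j, rfl⟩ : ∃ j, n = j + 1 := ⟨n - 1, by omega⟩
        exact ⟨j, h, hn, by omega⟩

theorem seg_zero (n : ℕ) : bd (lexInit n 0) = 0 := by
  have h := (bd_seg (n := n) (m := 0) (Nat.zero_le _)).1
  rw [Ef_zero] at h
  omega

/-- sizes below `(n-1)!`, all of them -/
theorem low_all' {n : ℕ} (A : Finset (Perm (Fin n))) (hA : A.card < (n - 1).factorial) :
    11 * bd (lexInit n A.card) ≤ 12 * bd A := by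
  rcases Nat.eq_zero_or_pos A.card with h0 | h0
  · rw [h0, seg_zero]
    omega
  · obtain ⟨j, h1, h2, h3⟩ := level h0 hA
    exact low' (by omega) A h1 h2

theorem low {n j : ℕ} (hj : j + 3 ≤ n) (A : Finset (Perm (Fin n)))
    (h1 : (j + 1).factorial ≤ A.card) (h2 : A.card < (j + 2).factorial) :
    10 * bd (lexInit n A.card) ≤ 11 * bd A := by
  have h := low' hj A h1 h2
  omega

theorem low_all {n : ℕ} (A : Finset (Perm (Fin n))) (hA : A.card < (n - 1).factorial) :
    10 * bd (lexInit n A.card) ≤ 11 * bd A := by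
  have h := low_all' A hA
  omega

/-- The conjecture up to the factor `4/5`, for every `n` and every size. -/
theorem factor_all {n : ℕ} (A : Finset (Perm (Fin n))) :
    4 * bd (lexInit n A.card) ≤ 5 * bd A := by
  have hhalf : ∀ B : Finset (Perm (Fin n)), 2 * B.card ≤ n.factorial →
      4 * bd (lexInit n B.card) ≤ 5 * bd B := by
    intro B hB
    rcases Nat.lt_or_ge B.card (n - 1).factorial with h | h
    · have h1 := low_all B h
      omega
    · rcases Nat.lt_or_ge n 2 with hn | hn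
      · have h1 : n = 0 ∨ n = 1 := by omega
        rcases h1 with rfl | rfl
        · have h2 : (0 : ℕ).factorial = 1 := rfl
          have h3 : (0 - 1 : ℕ).factorial = 1 := rfl
          omega
        · have h2 : (1 : ℕ).factorial = 1 := rfl
          have h3 : (1 - 1 : ℕ).factorial = 1 := rfl
          omega
      · obtain ⟨j, rfl⟩ : ∃ j, n = j + 2 := ⟨n - 2, by omega⟩
        exact mid B (by simpa using h) hB
  have hle : A.card ≤ n.factorial := by
    have := Finset.card_le_univ A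
    rwa [Fintype.card_perm, Fintype.card_fin] at this
  rcases Nat.le_total (2 * A.card) n.factorial with h | h
  · exact hhalf A h
  · have hc : Aᶜ.card = n.factorial - A.card := by
      rw [Finset.card_compl, Fintype.card_perm, Fintype.card_fin]
    have h1 := hhalf Aᶜ (by rw [hc]; omega)
    rw [hc, bd_seg_compl hle, bd_compl] at h1
    exact h1

/-- The conjecture up to the factor `11/12`, if it holds up to the factor `1 - 1/(4 n)` in the middle. -/
theorem factor_of' {n : ℕ} (hn : 3 ≤ n)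
    (hmid : ∀ A : Finset (Perm (Fin n)), (n - 1).factorial ≤ A.card →
      A.card + (n - 1).factorial ≤ n.factorial →
      (4 * n - 1) * bd (lexInit n A.card) ≤ 4 * n * bd A) (A : Finset (Perm (Fin n))) :
    11 * bd (lexInit n A.card) ≤ 12 * bd A := by
  have hle : A.card ≤ n.factorial := by
    have := Finset.card_le_univ A
    rwa [Fintype.card_perm, Fintype.card_fin] at this
  rcases Nat.lt_or_ge A.card (n - 1).factorial with h | h
  · exact low_all' A h
  · rcases Nat.lt_or_ge n.factorial (A.card + (n - 1).factorial) with h2 | h2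
    · have hc : Aᶜ.card = n.factorial - A.card := by
        rw [Finset.card_compl, Fintype.card_perm, Fintype.card_fin]
      have h1 := low_all' Aᶜ (by rw [hc]; omega)
      rw [hc, bd_seg_compl hle, bd_compl] at h1
      exact h1
    · have h3 := hmid A h h2
      obtain ⟨k, hk⟩ : ∃ k, 4 * n = k + 12 := ⟨4 * n - 12, by omega⟩
      rw [hk] at h3
      have h4 : k + 12 - 1 = k + 11 := by omega
      rw [h4] at h3
      generalize bd (lexInit n A.card) = L at *
      generalize bd A = B at *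
      by_contra hcon
      push Not at hcon
      have h5 : (k + 11) * (12 * B + 1) ≤ (k + 11) * (11 * L) := Nat.mul_le_mul_left _ (by omega)
      nlinarith

theorem factor_of {n : ℕ} (hn : 3 ≤ n)
    (hmid : ∀ A : Finset (Perm (Fin n)), (n - 1).factorial ≤ A.card →
      A.card + (n - 1).factorial ≤ n.factorial →
      (4 * n - 1) * bd (lexInit n A.card) ≤ 4 * n * bd A) (A : Finset (Perm (Fin n))) :
    10 * bd (lexInit n A.card) ≤ 11 * bd A := by
  have h := factor_of' hn hmid A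
  omega

end Pool.H98.TA
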