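import Pool.Agent.H98.TA.Fac
import Pool.Agent.H19.TA.Apx2

set_option autoImplicit false

/-!
# Sets of every size: the factor `11/12` for all `n` at least 100
-/

open Finset Equiv Pool.H60.Transp

namespace Pool.H98.TA

/-- The conjecture up to the factor `11/12`, for every `n` at least 100 and every size. -/
theorem factor' {n : ℕ} (hn : 100 ≤ n) (A : Finset (Perm (Fin n))) :
    11 * bd (lexInit n A.card) ≤ 12 * bd A :=
  factor_of' (by omega) (fun B h1 h2 => Pool.H19.TA.bd_rel hn B h1 h2) A

theorem factor {n : ℕ} (hn : 100 ≤ n) (A : Finset (Perm (Fin n))) :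
    10 * bd (lexInit n A.card) ≤ 11 * bd A := by
  have h := factor' hn A
  omega

end Pool.H98.TA
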