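import Pool.Agent.H98.TA.Fac

set_option autoImplicit false

/-!
# Small sets: the factor tends to one

`factor_s`: for `|A| ≤ (n-s)!` the boundary of the lexicographic segment with `|A|` elements is at most
`(11 s + 13) / (11 s + 11)` times the boundary of `A`.
-/

open Finset Equiv Pool.H60.Transp Pool.H60.NM

namespace Pool.H98.TA

/-- the quadratic for the first digit equal to one -/
private theorem quad {j h : ℝ} (hj : j = 0 ∨ 1 ≤ j) (h0 : 0 ≤ h) (h1 : h ≤ 1) :
    11 * (j * (h * (1 - h)) + j / (4 * (j + 1))) ≤ 2 * ((1 + h) * (j + 1 - h)) := by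
  rcases hj with rfl | hj
  · norm_num
    nlinarith
  · have hp : 0 < 4 * (j + 1) := by linarith
    have ha : 0 < 4 * (j + 1) * (11 * j - 2) := by
      have : 0 < 11 * j - 2 := by linarith
      positivity
    have hq : 0 ≤ 4 * (j + 1) * (11 * j - 2) * h ^ 2 - 36 * j * (j + 1) * h
        + (8 * (j + 1) ^ 2 - 11 * j) := by
      have e1 : 4 * (4 * (j + 1) * (11 * j - 2)) *
          (4 * (j + 1) * (11 * j - 2) * h ^ 2 - 36 * j * (j + 1) * h + (8 * (j + 1) ^ 2 - 11 * j)) =
          (2 * (4 * (j + 1) * (11 * j - 2)) * h - 36 * j * (j + 1)) ^ 2 +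
          16 * (j + 1) * (7 * (j - 2) ^ 3 - 6 * (j - 2) + 28) := by ring
      have e2 : 0 ≤ 7 * (j - 2) ^ 3 - 6 * (j - 2) + 28 := by
        nlinarith [mul_nonneg (sub_nonneg.2 hj) (sq_nonneg (j - 3)), mul_nonneg (sub_nonneg.2 hj) (sq_nonneg (j - 2)), mul_nonneg (sub_nonneg.2 hj) (sq_nonneg (2 * j - 5))]
      have e4 : 0 ≤ 4 * (4 * (j + 1) * (11 * j - 2)) *
          (4 * (j + 1) * (11 * j - 2) * h ^ 2 - 36 * j * (j + 1) * h + (8 * (j + 1) ^ 2 - 11 * j)) := by
        rw [e1]
        have e5 : 0 ≤ 16 * (j + 1) := by linarith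
        positivity
      exact nonneg_of_mul_nonneg_right e4 (by positivity)
    have hdiv : j / (4 * (j + 1)) * (4 * (j + 1)) = j := by field_simp
    have e6 : 4 * (j + 1) * (11 * (j * (h * (1 - h)) + j / (4 * (j + 1)))) ≤
        4 * (j + 1) * (2 * ((1 + h) * (j + 1 - h))) := by
      nlinarith [hq, hdiv]
    exact le_of_mul_le_mul_left e6 hp

/-- the inequality between the loss and the lower bound -/
private theorem arith {j y h T : ℝ} (hj : j = 0 ∨ 1 ≤ j) (hT : T = 1 ∨ 2 ≤ T) (h0 : 0 ≤ h)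
    (h1 : h ≤ 1) (hy1 : 1 + h ≤ y) (hy2 : y ≤ j + 2) (hy3 : y < 2 → y = 1 + h)
    (hhalf : T = 1 → 2 * y ≤ j + 2) :
    11 * T * (j * (h * (1 - h)) + j / (4 * (j + 1))) ≤
      2 * (y * (T * (j + 1) + T * (T - 1) / 2 + 1 - y)) := by
  have hT1 : 1 ≤ T := by rcases hT with h | h <;> linarith
  have hj0 : 0 ≤ j := by rcases hj with h | h <;> linarith
  rcases lt_or_ge y 2 with hy | hy
  · have hy' := hy3 hy
    rw [hy']
    have hq := quad hj h0 h1
    have e1 := mul_le_mul_of_nonneg_left hq (show (0 : ℝ) ≤ T by linarith)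
    have e2 : T * (2 * ((1 + h) * (j + 1 - h))) ≤
        2 * ((1 + h) * (T * (j + 1) + T * (T - 1) / 2 + 1 - (1 + h))) := by
      have e3 : T * (j + 1 - h) ≤ T * (j + 1) + T * (T - 1) / 2 + 1 - (1 + h) := by
        nlinarith [mul_nonneg (show 0 ≤ T - 1 by linarith) h0,
          mul_nonneg (show 0 ≤ T - 1 by linarith) (show 0 ≤ T by linarith)]
      have e4 := mul_le_mul_of_nonneg_left e3 (show (0 : ℝ) ≤ 1 + h by linarith)
      linarith
    linarith
  · have hloss : j * (h * (1 - h)) + j / (4 * (j + 1)) ≤ j / 4 + j / (4 * (j + 1)) := by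
      nlinarith [mul_nonneg hj0 (sq_nonneg (2 * h - 1))]
    have hp : 0 < 4 * (j + 1) := by linarith
    have hfrac : j / (4 * (j + 1)) ≤ 1 / 4 := by
      rw [div_le_div_iff₀ hp (by norm_num)]
      linarith
    rcases hT with rfl | hT
    · have h2y := hhalf rfl
      have e0 : j / (4 * (j + 1)) ≤ j / 12 := by
        rw [div_le_div_iff₀ hp (by norm_num)]
        nlinarith
      have e1 : j * (h * (1 - h)) + j / (4 * (j + 1)) ≤ j / 3 := by linarith
      have e2 : 4 * j ≤ 2 * (y * (1 * (j + 1) + 1 * (1 - 1) / 2 + 1 - y)) := by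
        nlinarith [mul_nonneg (show 0 ≤ y - 2 by linarith) (show 0 ≤ j - y by linarith)]
      linarith
    · have e1 : j * (h * (1 - h)) + j / (4 * (j + 1)) ≤ (j + 1) / 4 := by linarith
      have e2 : 11 * T * (j * (h * (1 - h)) + j / (4 * (j + 1))) ≤ 11 * T * ((j + 1) / 4) :=
        mul_le_mul_of_nonneg_left e1 (by linarith)
      have e3 : T * (4 * (j + 1)) ≤ 2 * (y * (T * (j + 1) + T * (T - 1) / 2 + 1 - y)) := by
        have e4 : T * (2 * (j + 1) + 2 - y) ≤ 2 * (T * (j + 1) + T * (T - 1) / 2 + 1 - y) := by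
          nlinarith [mul_nonneg (show 0 ≤ T - 2 by linarith) (show 0 ≤ T - 1 by linarith),
            mul_nonneg (show 0 ≤ T - 2 by linarith) (show 0 ≤ y - 1 by linarith)]
        have e5 : 4 * (j + 1) ≤ y * (2 * (j + 1) + 2 - y) := by
          nlinarith [mul_nonneg (show 0 ≤ y - 2 by linarith) (show 0 ≤ 2 * (j + 1) - y by linarith)]
        have e6 := mul_le_mul_of_nonneg_left e4 (show (0 : ℝ) ≤ y by linarith)
        have e7 := mul_le_mul_of_nonneg_left e5 (show (0 : ℝ) ≤ T by linarith)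
        linarith
      nlinarith [mul_nonneg (show 0 ≤ T by linarith) (show 0 ≤ j + 1 by linarith)]

/-- the inequality at one level -/
theorem coreS {j T : ℕ} (hT : 1 ≤ T) (A : Finset (Perm (Fin (j + 1 + T))))
    (h1 : (j + 1).factorial ≤ A.card) (h2 : A.card < (j + 2).factorial)
    (h3 : T = 1 → 2 * A.card ≤ (j + 2).factorial) :
    11 * T * bd (lexInit (j + 1 + T) A.card) ≤ (11 * T + 2) * bd A := by
  obtain ⟨K, y, t, hK, ht0, ht1, hy1, hy2, hm, hKd, hy3, hgap, -, hbd⟩ :=
    core (by omega) A h1 h2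
  have hjj : (j : ℝ) = 0 ∨ (1 : ℝ) ≤ j := by
    rcases Nat.eq_zero_or_pos j with h | h
    · left; rw [h]; norm_num
    · right; exact_mod_cast h
  have hTT : (T : ℝ) = 1 ∨ (2 : ℝ) ≤ T := by
    have h : T = 1 ∨ 2 ≤ T := by omega
    rcases h with h | h
    · left; rw [h]; norm_num
    · right; exact_mod_cast h
  have hhalf : (T : ℝ) = 1 → 2 * y ≤ (j : ℝ) + 2 := by
    intro hT1
    have hT1' : T = 1 := by exact_mod_cast hT1
    have h4 := h3 hT1'
    have h5 : (2 : ℝ) * A.card ≤ ((j : ℝ) + 2) * ((j + 1).factorial : ℝ) := by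
      rw [Nat.factorial_succ (j + 1)] at h4
      have h6 : ((2 * A.card : ℕ) : ℝ) ≤ (((j + 1 + 1) * (j + 1).factorial : ℕ) : ℝ) := by
        exact_mod_cast h4
      push_cast at h6 ⊢
      linarith
    rw [hm, ← hKd] at h5
    have h7 : K * (2 * y) ≤ K * ((j : ℝ) + 2) := by linarith
    exact le_of_mul_le_mul_left h7 hK
  have har := arith (j := (j : ℝ)) (y := y) (h := t) (T := (T : ℝ)) hjj hTT ht0 ht1 hy1 hy2 hy3 hhalf
  have hn : (((j + 1 + T : ℕ) : ℝ)) = (j : ℝ) + 1 + T := by push_cast; ring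
  rw [hn] at hbd
  have e0 : ((j : ℝ) + 1 + T) * ((j : ℝ) + 1 + T - 1) / 2 - (j + 1) * j / 2 + 1 - y =
      (T : ℝ) * ((j : ℝ) + 1) + (T : ℝ) * ((T : ℝ) - 1) / 2 + 1 - y := by ring
  rw [e0] at hbd
  have h4 := mul_le_mul_of_nonneg_left har hK.le
  have hT0 : (0 : ℝ) ≤ T := Nat.cast_nonneg T
  have h5 := mul_le_mul_of_nonneg_left hgap (show (0 : ℝ) ≤ 11 * T by linarith)
  have h6 : (11 : ℝ) * T * bd (lexInit (j + 1 + T) A.card) ≤ (11 * T + 2) * bd A := by nlinarith
  exact_mod_cast h6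

/-- from one factor to a larger one -/
private theorem weaken {s T L B : ℕ} (hs : s + 1 ≤ T) (h : 11 * T * L ≤ (11 * T + 2) * B) :
    11 * (s + 1) * L ≤ (11 * s + 13) * B := by
  rcases Nat.le_total L B with h1 | h1
  · calc 11 * (s + 1) * L ≤ 11 * (s + 1) * B := Nat.mul_le_mul_left _ h1
      _ ≤ (11 * s + 13) * B := Nat.mul_le_mul_right _ (by omega)
  · obtain ⟨d, rfl⟩ : ∃ d, L = B + d := ⟨L - B, by omega⟩
    have h2 : 11 * T * d ≤ 2 * B := by nlinarith
    have h3 : 11 * (s + 1) * d ≤ 11 * T * d := Nat.mul_le_mul_right _ (by omega)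
    nlinarith

private theorem card_le_fact {n : ℕ} (A : Finset (Perm (Fin n))) : A.card ≤ n.factorial := by
  have := Finset.card_le_univ A
  rwa [Fintype.card_perm, Fintype.card_fin] at this

/-- one level, any factor allowed by the size -/
private theorem one {n s j : ℕ} (A : Finset (Perm (Fin n))) (h1 : (j + 1).factorial ≤ A.card)
    (h2 : A.card < (j + 2).factorial) (h3 : j + 2 + s ≤ n)
    (h4 : n = j + 2 → 2 * A.card ≤ n.factorial) :
    11 * (s + 1) * bd (lexInit n A.card) ≤ (11 * s + 13) * bd A := by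
  obtain ⟨T, rfl⟩ : ∃ T, n = j + 1 + T := ⟨n - (j + 1), by omega⟩
  have h5 := coreS (j := j) (T := T) (by omega) A h1 h2 (by
    rintro rfl
    exact h4 rfl)
  exact weaken (by omega) h5

/-- **The factor tends to one.** -/
theorem factor_s {n : ℕ} (s : ℕ) (A : Finset (Perm (Fin n))) (hA : A.card ≤ (n - s).factorial) :
    11 * (s + 1) * bd (lexInit n A.card) ≤ (11 * s + 13) * bd A := by
  rcases Nat.eq_zero_or_pos A.card with h0 | h0
  · rw [h0, seg_zero]
    omega
  rcases Nat.eq_zero_or_pos s with hs | hs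
  · subst hs
    -- all sizes
    have hhalf : ∀ B : Finset (Perm (Fin n)), 2 * B.card ≤ n.factorial →
        11 * (0 + 1) * bd (lexInit n B.card) ≤ (11 * 0 + 13) * bd B := by
      intro B hB
      rcases Nat.eq_zero_or_pos B.card with hB0 | hB0
      · rw [hB0, seg_zero]
        omega
      · have hlt : B.card < n.factorial := by omega
        obtain ⟨j, h1, h2, h3⟩ := level hB0 hlt
        exact one B h1 h2 (by omega) (fun _ => hB)
    rcases Nat.le_total (2 * A.card) n.factorial with h | h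
    · exact hhalf A h
    · have hle := card_le_fact A
      have hc : Aᶜ.card = n.factorial - A.card := by
        rw [Finset.card_compl, Fintype.card_perm, Fintype.card_fin]
      have h1 := hhalf Aᶜ (by rw [hc]; omega)
      rw [hc, bd_seg_compl hle, bd_compl] at h1
      exact h1
  · rcases Nat.lt_or_ge A.card (n - s).factorial with h | h
    · obtain ⟨j, h1, h2, h3⟩ := level h0 h
      exact one A h1 h2 (by omega) (fun h => by omega)
    · have heq : A.card = (n - s).factorial := le_antisymm hA h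
      have hle : bd (lexInit n A.card) ≤ bd A := by
        rcases Nat.eq_zero_or_pos (n - s) with hns | hns
        · rw [hns] at heq
          exact bd_lex_le (k := 1) (c := 1) le_rfl (by norm_num) A (by rw [heq]; rfl)
        · exact bd_lex_le (k := n - s) (c := 1) hns (by omega) A (by rw [heq, one_mul])
      calc 11 * (s + 1) * bd (lexInit n A.card) ≤ 11 * (s + 1) * bd A := Nat.mul_le_mul_left _ hle
        _ ≤ (11 * s + 13) * bd A := Nat.mul_le_mul_right _ (by omega)

end Pool.H98.TA
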